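import Mathlib

namespace Pool.Agent.H.MP_0380a0_co

variable {V : Type*} {G : SimpleGraph V}

/-- `v` is reached from `u` inside `W` in at most `n` steps. -/
inductive Rch (G : SimpleGraph V) (W : Set V) (u : V) : ℕ → V → Prop
  | zero : u ∈ W → Rch G W u 0 u
  | step {n : ℕ} {a b : V} : Rch G W u n a → (a = b ∨ G.Adj a b) → b ∈ W → Rch G W u (n + 1) b

theorem Rch.mem {W : Set V} {u v : V} {n : ℕ} (h : Rch G W u n v) : v ∈ W := by
  cases h with
  | zero h => exact h
  | step _ _ h => exact h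

theorem Rch.start {W : Set V} {u v : V} {n : ℕ} (h : Rch G W u n v) : u ∈ W := by
  induction h with
  | zero h => exact h
  | step _ _ _ ih => exact ih

theorem Rch.mono {W : Set V} {u v : V} {n m : ℕ} (h : Rch G W u n v) (hm : n ≤ m) :
    Rch G W u m v := by
  induction hm with
  | refl => exact h
  | step _ ih => exact ih.step (Or.inl rfl) h.mem

theorem Rch.refl' {W : Set V} {u : V} (h : u ∈ W) (n : ℕ) : Rch G W u n u :=
  (Rch.zero h).mono (Nat.zero_le _)

theorem Rch.map {V' : Type*} {G' : SimpleGraph V'} {W : Set V} {W' : Set V'} (π : V → V')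
    (h1 : ∀ a ∈ W, π a ∈ W')
    (h2 : ∀ a ∈ W, ∀ b ∈ W, G.Adj a b → π a = π b ∨ G'.Adj (π a) (π b))
    {u v : V} {n : ℕ} (h : Rch G W u n v) : Rch G' W' (π u) n (π v) := by
  induction h with
  | zero h => exact Rch.zero (h1 _ h)
  | step h e hb ih =>
    refine ih.step ?_ (h1 _ hb)
    rcases e with rfl | e
    · exact Or.inl rfl
    · exact h2 _ h.mem _ hb e

theorem Rch.subset {W W' : Set V} (hW : W ⊆ W') {u v : V} {n : ℕ} (h : Rch G W u n v) :
    Rch G W' u n v :=
  Rch.map id hW (fun _ _ _ _ e => Or.inr e) h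

theorem Rch.cons {W : Set V} {c a b : V} {n : ℕ} (h : Rch G W a n b) (e : c = a ∨ G.Adj c a)
    (hc : c ∈ W) : Rch G W c (n + 1) b := by
  induction h with
  | zero h => exact (Rch.zero hc).step e h
  | step _ e' hb ih => exact ih.step e' hb

theorem Rch.symm {W : Set V} {u v : V} {n : ℕ} (h : Rch G W u n v) : Rch G W v n u := by
  induction h with
  | zero h => exact Rch.zero h
  | step _ e hb ih => exact ih.cons (e.imp Eq.symm G.adj_symm) hb

theorem Rch.lip {W : Set V} (f : V → ℕ) (hf : ∀ a ∈ W, ∀ b ∈ W, G.Adj a b → f b ≤ f a + 1)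
    {u v : V} {n : ℕ} (h : Rch G W u n v) : f v ≤ f u + n := by
  induction h with
  | zero _ => simp
  | step h e hb ih =>
    rcases e with rfl | e
    · omega
    · have := hf _ h.mem _ hb e; omega

theorem Rch.finite {W : Set V} {u v : V} {n : ℕ} (h : Rch G W u n v) :
    ∃ F : Set V, F.Finite ∧ F ⊆ W ∧ Rch G F u n v := by
  induction h with
  | zero h => exact ⟨{u}, Set.finite_singleton _, by simpa using h, Rch.zero rfl⟩
  | @step n a b _ e hb ih =>
    obtain ⟨F, h1, h2, h3⟩ := ih
    exact ⟨insert b F, h1.insert _, Set.insert_subset hb h2,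
      (h3.subset (Set.subset_insert _ _)).step e (Set.mem_insert _ _)⟩

theorem Rch.first {W : Set V} {u v : V} {n : ℕ} (h : Rch G W u n v) (huv : u ≠ v) :
    ∃ x ∈ W, G.Adj u x := by
  induction h with
  | zero _ => exact absurd rfl huv
  | @step n a b _ e hb ih =>
    by_cases ha : u = a
    · subst ha
      exact ⟨b, hb, e.resolve_left huv⟩
    · exact ih ha

/-- Working form of distance-heredity inside `S`. -/
def DHs (G : SimpleGraph V) (S : Set V) : Prop :=
  ∀ W ⊆ S, ∀ (u v : V) (n m : ℕ), Rch G W u n v → Rch G S u m v → Rch G W u m v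

/-- A prunable vertex of `S`. -/
def Twin (G : SimpleGraph V) (S : Set V) (w w0 : V) : Prop :=
  w0 ∈ S ∧ w0 ≠ w ∧ ∀ x ∈ S, x ≠ w → x ≠ w0 → (G.Adj w x ↔ G.Adj w0 x)

def Pend (G : SimpleGraph V) (S : Set V) (w w0 : V) : Prop :=
  w0 ≠ w ∧ ∀ x ∈ S, G.Adj w x → x = w0

theorem Twin.symm {S : Set V} {w w0 : V} (hw : w ∈ S) (h : Twin G S w w0) : Twin G S w0 w :=
  ⟨hw, h.2.1.symm, fun x hx h1 h2 => (h.2.2 x hx h2 h1).symm⟩

theorem twin_map {S W : Set V} {w w0 : V} (h : Twin G S w w0) (hW : W ⊆ S)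
    (h0 : w ∈ W → w0 ∈ W) {u v : V} (hu : u ≠ w) (hv : v ≠ w) {n : ℕ} (hr : Rch G W u n v) :
    Rch G (W \ {w}) u n v := by
  classical
  have := Rch.map (G' := G) (W' := W \ {w}) (fun a => if a = w then w0 else a) ?_ ?_ hr
  · simpa [hu, hv] using this
  · intro a ha
    by_cases e : a = w
    · simp only [e, if_true]; exact ⟨h0 (e ▸ ha), h.2.1⟩
    · simp only [e, if_false]; exact ⟨ha, e⟩
  · intro a ha b hb e
    by_cases e1 : a = w <;> by_cases e2 : b = w <;> simp only [e1, e2, if_true, if_false]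
    · exact Or.inl trivial
    · by_cases e3 : b = w0
      · exact Or.inl e3.symm
      · exact Or.inr ((h.2.2 b (hW hb) e2 e3).1 (e1 ▸ e))
    · by_cases e3 : a = w0
      · exact Or.inl e3
      · exact Or.inr ((h.2.2 a (hW ha) e1 e3).1 (e2 ▸ e.symm)).symm
    · exact Or.inr e

theorem pend_off {W : Set V} {w w0 : V} (h : Pend G W w w0) {u v : V} (hu : u ≠ w) {n : ℕ}
    (hr : Rch G W u n v) : (v ≠ w → Rch G (W \ {w}) u n v) ∧ (v = w → ∃ k, n = k + 1 ∧
      Rch G (W \ {w}) u k w0 ∧ G.Adj w0 w) := by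
  induction hr with
  | zero h0 => exact ⟨fun _ => Rch.zero ⟨h0, hu⟩, fun e => absurd e hu⟩
  | @step n a b hr e hb ih =>
    by_cases ha : a = w
    · obtain ⟨k, rfl, h1, h2⟩ := ih.2 ha
      constructor
      · intro hbw
        have : b = w0 := h.2 b hb (ha ▸ e.resolve_left (fun e' => hbw (e' ▸ ha)))
        subst this
        exact h1.mono (by omega)
      · intro _
        exact ⟨k + 1, rfl, h1.mono (by omega), h2⟩
    · constructor
      · intro hbw
        exact (ih.1 ha).step e ⟨hb, hbw⟩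
      · rintro rfl
        have e' := e.resolve_left ha
        have : a = w0 := h.2 a hr.mem e'.symm
        subst this
        exact ⟨n, rfl, ih.1 ha, e'⟩

theorem DHs.pend {S : Set V} {w w0 : V} (h : Pend G S w w0) (ih : DHs G (S \ {w})) :
    DHs G S := by
  have key : ∀ W ⊆ S, ∀ (u v : V) (n m : ℕ), u ≠ w → Rch G W u n v → Rch G S u m v →
      Rch G W u m v := by
    intro W hW u v n m hu h1 h2
    have hp : Pend G W w w0 := ⟨h.1, fun x hx => h.2 x (hW hx)⟩
    have hW' : W \ {w} ⊆ S \ {w} := Set.diff_subset_diff_left hW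
    by_cases hv : v = w
    · obtain ⟨k, rfl, a1, a2⟩ := (pend_off hp hu h1).2 hv
      obtain ⟨l, rfl, b1, _⟩ := (pend_off h hu h2).2 hv
      exact ((ih _ hW' _ _ _ _ a1 b1).subset Set.diff_subset).step (Or.inr (hv ▸ a2)) h1.mem
    · exact (ih _ hW' _ _ _ _ ((pend_off hp hu h1).1 hv) ((pend_off h hu h2).1 hv)).subset
        Set.diff_subset
  intro W hW u v n m h1 h2
  by_cases hu : u = w
  · by_cases hv : v = w
    · rw [hu, hv]; exact Rch.refl' (hu ▸ h1.start) _
    · exact (key W hW v u n m hv h1.symm h2.symm).symm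
  · exact key W hW u v n m hu h1 h2

theorem DHs.twin {S : Set V} {w w0 : V} (hw : w ∈ S) (h : Twin G S w w0)
    (ih : DHs G (S \ {w})) (ih0 : DHs G (S \ {w0})) : DHs G S := by
  have key : ∀ c c0 : V, Twin G S c c0 → DHs G (S \ {c}) → ∀ W ⊆ S, (c ∈ W → c0 ∈ W) →
      ∀ (u v : V) (n m : ℕ), u ≠ c → v ≠ c → Rch G W u n v → Rch G S u m v → Rch G W u m v := by
    intro c c0 ht hd W hW hc u v n m hu hv h1 h2
    exact (hd _ (Set.diff_subset_diff_left hW) _ _ _ _ (twin_map ht hW hc hu hv h1)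
      (twin_map ht le_rfl (fun _ => ht.1) hu hv h2)).subset Set.diff_subset
  have key2 : ∀ c c0 : V, Twin G S c c0 → ∀ W ⊆ S, ∀ (n m : ℕ),
      Rch G W c n c0 → Rch G S c m c0 → Rch G W c m c0 := by
    intro c c0 ht W hW n m h1 h2
    have hm : 1 ≤ m := by
      cases h2 with
      | zero _ => exact absurd rfl ht.2.1
      | step _ _ _ => omega
    by_cases ha : G.Adj c c0
    · exact ((Rch.zero h1.start).step (Or.inr ha) h1.mem).mono hm
    · have hm2 : 2 ≤ m := by
        by_contra hlt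
        have : m = 0 + 1 := by omega
        subst this
        cases h2 with
        | step h3 e _ =>
          cases h3 with
          | zero _ => exact e.elim (fun e => ht.2.1 e.symm) ha
      obtain ⟨x, hx, e⟩ := h1.first ht.2.1.symm
      have hx0 : x ≠ c0 := fun e' => ha (e' ▸ e)
      have e2 := (ht.2.2 x (hW hx) e.ne.symm hx0).1 e
      exact (((Rch.zero h1.start).step (Or.inr e) hx).step (Or.inr e2.symm) h1.mem).mono hm2
  have h' := h.symm hw
  intro W hW u v n m h1 h2
  by_cases huv : u = v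
  · subst huv; exact Rch.refl' h1.start _
  by_cases a1 : u = w
  · by_cases a2 : v = w0
    · subst a1 a2; exact key2 _ _ h W hW n m h1 h2
    · exact key w0 w h' ih0 W hW (fun _ => a1 ▸ h1.start) u v n m (a1 ▸ h.2.1.symm) a2 h1 h2
  by_cases a2 : v = w
  · by_cases a3 : u = w0
    · subst a2 a3; exact key2 _ _ h' W hW n m h1 h2
    · exact key w0 w h' ih0 W hW (fun _ => a2 ▸ h1.mem) u v n m a3 (a2 ▸ h.2.1.symm) h1 h2
  by_cases a3 : w0 ∈ W
  · exact key w w0 h ih W hW (fun _ => a3) u v n m a1 a2 h1 h2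
  · exact key w0 w h' ih0 W hW (fun e => absurd e a3) u v n m
      (fun e => a3 (e ▸ h1.start)) (fun e => a3 (e ▸ h1.mem)) h1 h2

/-- If every finite set with two points has a prunable vertex, the graph is distance-hereditary. -/
theorem dhs_of_prune (H : ∀ S : Set V, S.Finite → S.Nontrivial →
    ∃ w ∈ S, ∃ w0, Twin G S w w0 ∨ Pend G S w w0) : DHs G Set.univ := by
  have key : ∀ k, ∀ S : Set V, S.Finite → S.ncard = k → DHs G S := by
    intro k
    induction k using Nat.strong_induction_on with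
    | _ k ih =>
      intro S hS hk
      by_cases hn : S.Nontrivial
      · obtain ⟨w, hw, w0, h | h⟩ := H S hS hn
        · exact DHs.twin hw h
            (ih _ (hk ▸ Set.ncard_diff_singleton_lt_of_mem hw hS) _ hS.diff rfl)
            (ih _ (hk ▸ Set.ncard_diff_singleton_lt_of_mem h.1 hS) _ hS.diff rfl)
        · exact DHs.pend h (ih _ (hk ▸ Set.ncard_diff_singleton_lt_of_mem hw hS) _ hS.diff rfl)
      · intro W hW u v n m h1 _
        have : u = v := (Set.not_nontrivial_iff.1 hn) (hW h1.start) (hW h1.mem)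
        subst this
        exact Rch.refl' h1.start _
  intro W _ u v n m h1 h2
  obtain ⟨F1, a1, a2, a3⟩ := h1.finite
  obtain ⟨F2, b1, _, b3⟩ := h2.finite
  exact (key _ (F1 ∪ F2) (a1.union b1) rfl F1 Set.subset_union_left u v n m a3
    (b3.subset Set.subset_union_right)).subset a2

/-! ### Link with walks -/

theorem rch_of_walk {u v : V} (p : G.Walk u v) : Rch G Set.univ u p.length v := by
  induction p with
  | nil => exact Rch.zero trivial
  | cons h _ ih => exact ih.cons (Or.inr h) trivial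

theorem walk_of_rch {W : Set V} {u v : V} {n : ℕ} (h : Rch G W u n v) :
    ∃ p : G.Walk u v, p.length ≤ n := by
  induction h with
  | zero _ => exact ⟨SimpleGraph.Walk.nil, le_rfl⟩
  | step _ e _ ih =>
    obtain ⟨p, hp⟩ := ih
    rcases e with rfl | e
    · exact ⟨p, by omega⟩
    · exact ⟨p.concat e, by simp; omega⟩

theorem rch_iff_edist {u v : V} {n : ℕ} : Rch G Set.univ u n v ↔ G.edist u v ≤ n := by
  constructor
  · intro h
    obtain ⟨p, hp⟩ := walk_of_rch h
    exact (SimpleGraph.edist_le p).trans (by exact_mod_cast hp)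
  · intro h
    obtain ⟨p, hp⟩ := SimpleGraph.exists_walk_of_edist_ne_top
      (ne_top_of_le_ne_top (ENat.coe_ne_top n) h)
    exact (rch_of_walk p).mono (by exact_mod_cast (hp ▸ h : (p.length : ℕ∞) ≤ n))

theorem rch_induce {W : Set V} {u v : W} {n : ℕ} :
    Rch (G.induce W) Set.univ u n v ↔ Rch G W u.1 n v.1 := by
  classical
  constructor
  · intro h
    exact Rch.map Subtype.val (fun a _ => a.2) (fun _ _ _ _ e => Or.inr e) h
  · intro h
    have := Rch.map (G' := G.induce W) (W' := Set.univ)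
      (fun a => if ha : a ∈ W then (⟨a, ha⟩ : W) else u) (fun _ _ => trivial)
      (fun a ha b hb e => Or.inr (by simpa [ha, hb] using e)) h
    simpa using this

theorem dhs_iff : DHs G Set.univ ↔ ∀ W : Set V, (G.induce W).Connected →
    ∀ u v : W, (G.induce W).edist u v = G.edist u.1 v.1 := by
  constructor
  · intro h W hW u v
    obtain ⟨p⟩ := hW.preconnected u v
    have h1 := rch_induce.1 (rch_of_walk p)
    refine le_antisymm ?_ ?_
    · refine ENat.forall_natCast_le_iff_le.1 ?_
      intro a ha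
      by_contra hlt
      push Not at hlt
      obtain ⟨k, hk⟩ := ENat.ne_top_iff_exists.1 (ne_top_of_lt hlt)
      have := rch_iff_edist.1 (rch_induce.2 (h W (Set.subset_univ _) _ _ _ k h1
        (rch_iff_edist.2 hk.ge)))
      exact absurd (ha.trans (hk ▸ this)) (not_le.2 hlt)
    · obtain ⟨q, hq⟩ := SimpleGraph.exists_walk_of_edist_ne_top
        (ne_top_of_le_ne_top (ENat.coe_ne_top _) (SimpleGraph.edist_le p))
      rw [← hq]
      exact rch_iff_edist.1 ((rch_induce.1 (rch_of_walk q)).subset (Set.subset_univ _))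
  · intro h W _ u v n m h1 h2
    let W0 : Set V := {x | ∃ k, Rch G W u k x}
    have lift : ∀ k x, Rch G W u k x → Rch G W0 u k x := by
      intro k x hx
      induction hx with
      | zero h0 => exact Rch.zero ⟨0, Rch.zero h0⟩
      | step h3 e hb ih => exact ih.step e ⟨_, h3.step e hb⟩
    have hu : u ∈ W0 := ⟨0, Rch.zero h1.start⟩
    have hv : v ∈ W0 := ⟨n, h1⟩
    have hc : (G.induce W0).Connected := by
      have hr : ∀ x : W0, (G.induce W0).Reachable ⟨u, hu⟩ x := by
        rintro ⟨x, k, hk⟩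
        obtain ⟨p, _⟩ := walk_of_rch (rch_induce.2
          (show Rch G W0 (⟨u, hu⟩ : W0).1 k (⟨x, k, hk⟩ : W0).1 from lift k x hk))
        exact ⟨p⟩
      haveI : Nonempty W0 := ⟨⟨u, hu⟩⟩
      exact ⟨fun a b => (hr a).symm.trans (hr b)⟩
    have h3 := h W0 hc ⟨u, hu⟩ ⟨v, hv⟩
    have h4 := rch_induce.1 (rch_iff_edist.2 (h3 ▸ rch_iff_edist.1 h2 :
      (G.induce W0).edist ⟨u, hu⟩ ⟨v, hv⟩ ≤ m))
    exact h4.subset fun x hx => hx.elim fun _ hx => hx.mem

end Pool.Agent.H.MP_0380a0_co
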