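import Pool.Agent.H.MP_0380a0_co.A

namespace Pool.Agent.H.MP_0380a0_co

variable {V : Type*} {G : SimpleGraph V}

def P4free (E : V → V → Prop) (M : Set V) : Prop :=
  ∀ a ∈ M, ∀ b ∈ M, ∀ c ∈ M, ∀ d ∈ M, a ≠ b → a ≠ c → a ≠ d → b ≠ c → b ≠ d → c ≠ d →
    E a b → E b c → E c d → ¬ E a c → ¬ E b d → ¬ E a d → False

def Split (E : V → V → Prop) (M : Set V) : Prop :=
  ∃ A ⊆ M, A.Nonempty ∧ (M \ A).Nonempty ∧ ∃ t : Prop, ∀ a ∈ A, ∀ b ∈ M \ A, (E a b ↔ t)

theorem split_core {E : V → V → Prop} (hs : ∀ a b, E a b → E b a) {M A B : Set V} {v x z : V}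
    (hM : ∀ y, y ∈ M ↔ y = v ∨ y ∈ A ∨ y ∈ B) (hvA : v ∉ A) (hvB : v ∉ B)
    (hAB : ∀ a ∈ A, a ∉ B) (h0 : ∀ a ∈ A, ∀ b ∈ B, ¬ E a b) (hP : P4free E M)
    (hx : x ∈ A) (hxv : ¬ E x v) (hz : z ∈ B) (hzv : E z v) : Split E M := by
  by_cases h : ∃ a ∈ A, ¬ E a v ∧ ∃ y ∈ A, E y v ∧ E a y
  · obtain ⟨a, ha, h1, y, hy, h2, h3⟩ := h
    exfalso
    refine hP a ((hM _).2 (by tauto)) y ((hM _).2 (by tauto)) v ((hM _).2 (by tauto)) z
      ((hM _).2 (by tauto)) ?_ ?_ ?_ ?_ ?_ ?_ h3 h2 (hs _ _ hzv) h1 (h0 y hy z hz) (h0 a ha z hz)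
    · rintro rfl; exact h1 h2
    · rintro rfl; exact hvA ha
    · rintro rfl; exact hAB _ ha hz
    · rintro rfl; exact hvA hy
    · rintro rfl; exact hAB _ hy hz
    · rintro rfl; exact hvB hz
  · push Not at h
    refine ⟨{a | a ∈ A ∧ ¬ E a v}, fun a ha => (hM _).2 (Or.inr (Or.inl ha.1)), ⟨x, hx, hxv⟩,
      ⟨v, (hM _).2 (Or.inl rfl), fun h => hvA h.1⟩, False, ?_⟩
    rintro a ⟨ha, h1⟩ b ⟨hb, h2⟩
    rcases (hM _).1 hb with rfl | hb | hb
    · simpa using h1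
    · have : E b v := by by_contra h3; exact h2 ⟨hb, h3⟩
      simpa using h a ha h1 b hb this
    · simpa using h0 a ha b hb

theorem split_step {E : V → V → Prop} (hs : ∀ a b, E a b → E b a) {M A B : Set V} {v : V}
    (hM : ∀ y, y ∈ M ↔ y = v ∨ y ∈ A ∨ y ∈ B) (hvA : v ∉ A) (hvB : v ∉ B)
    (hAB : ∀ a ∈ A, a ∉ B) (h0 : ∀ a ∈ A, ∀ b ∈ B, ¬ E a b) (hP : P4free E M)
    (hA : A.Nonempty) (hB : B.Nonempty) : Split E M := by
  by_cases h1 : ∃ z ∈ B, E z v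
  · obtain ⟨z, hz, hzv⟩ := h1
    by_cases h2 : ∃ x ∈ A, ¬ E x v
    · obtain ⟨x, hx, hxv⟩ := h2
      exact split_core hs hM hvA hvB hAB h0 hP hx hxv hz hzv
    · push Not at h2
      by_cases h3 : ∃ x ∈ B, ¬ E x v
      · obtain ⟨x, hx, hxv⟩ := h3
        obtain ⟨y, hy⟩ := hA
        exact split_core (A := B) (B := A) hs (fun y => by rw [hM]; tauto) hvB hvA
          (fun a ha hb => hAB a hb ha) (fun a ha b hb e => h0 b hb a ha (hs _ _ e)) hP hx hxv hy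
          (h2 y hy)
      · push Not at h3
        refine ⟨{v}, by simp [hM], by simp, ⟨z, (hM _).2 (by tauto), fun e => hvB (e ▸ hz)⟩,
          True, ?_⟩
        rintro a rfl b ⟨hb, h4⟩
        rcases (hM _).1 hb with rfl | hb | hb
        · exact absurd rfl h4
        · simpa using hs _ _ (h2 b hb)
        · simpa using hs _ _ (h3 b hb)
  · push Not at h1
    refine ⟨B, fun a ha => (hM _).2 (by tauto), hB, ⟨v, (hM _).2 (Or.inl rfl), hvB⟩, False, ?_⟩
    rintro a ha b ⟨hb, h4⟩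
    rcases (hM _).1 hb with rfl | hb | hb
    · simpa using h1 a ha
    · simpa using fun e => h0 b hb a ha (hs _ _ e)
    · exact absurd hb h4

theorem P4free.subset {E : V → V → Prop} {M N : Set V} (h : P4free E M) (hN : N ⊆ M) :
    P4free E N := fun a ha b hb c hc d hd => h a (hN ha) b (hN hb) c (hN hc) d (hN hd)

theorem split_exists {E : V → V → Prop} (hs : ∀ a b, E a b → E b a) :
    ∀ (k : ℕ) (M : Set V), M.Finite → M.ncard = k → M.Nontrivial → P4free E M → Split E M := by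
  intro k
  induction k using Nat.strong_induction_on with
  | _ k ih =>
    intro M hM hk hn hP
    obtain ⟨v, hv, u, hu, huv⟩ := hn
    by_cases h : (M \ {v}).Nontrivial
    · obtain ⟨A, hA, a1, a2, t, ht⟩ := ih _ (hk ▸ Set.ncard_diff_singleton_lt_of_mem hv hM) _
        hM.diff rfl h (hP.subset Set.diff_subset)
      have hM' : ∀ y, y ∈ M ↔ y = v ∨ y ∈ A ∨ y ∈ (M \ {v}) \ A := by
        intro y
        constructor
        · intro hy
          by_cases e : y = v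
          · exact Or.inl e
          · by_cases e' : y ∈ A
            · exact Or.inr (Or.inl e')
            · exact Or.inr (Or.inr ⟨⟨hy, e⟩, e'⟩)
        · rintro (rfl | e | e)
          · exact hv
          · exact (hA e).1
          · exact e.1.1
      by_cases tt : t
      · have hP' : P4free (fun a b => ¬ E a b) M := by
          intro a ha b hb c hc d hd n1 n2 n3 n4 n5 n6 e1 e2 e3 e4 e5 e6
          exact hP c hc a ha d hd b hb n2.symm n6 n4.symm n3 n1 n5.symm (hs _ _ (not_not.1 e4))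
            (not_not.1 e6) (hs _ _ (not_not.1 e5)) e3 e1 (fun e => e2 (hs _ _ e))
        obtain ⟨A', b1, b2, b3, t', ht'⟩ := split_step (E := fun a b => ¬ E a b)
          (fun a b h e => h (hs _ _ e)) hM' (fun e => (hA e).2 rfl) (fun e => e.1.2 rfl)
          (fun a ha e => e.2 ha) (fun a ha b hb => not_not.2 ((ht a ha b hb).2 tt)) hP' a1 a2
        exact ⟨A', b1, b2, b3, ¬ t', fun a ha b hb => by have := ht' a ha b hb; tauto⟩
      · exact split_step hs hM' (fun e => (hA e).2 rfl) (fun e => e.1.2 rfl)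
          (fun a ha e => e.2 ha) (fun a ha b hb e => tt ((ht a ha b hb).1 e)) hP a1 a2
    · refine ⟨{v}, by simpa using hv, by simp, ⟨u, hu, huv.symm⟩, E v u, ?_⟩
      rintro a rfl b hb
      rw [(Set.not_nontrivial_iff.1 h) hb ⟨hu, huv.symm⟩]

theorem twins_exist {E : V → V → Prop} (hs : ∀ a b, E a b → E b a) :
    ∀ (k : ℕ) (M : Set V), M.Finite → M.ncard = k → M.Nontrivial → P4free E M →
      ∃ a ∈ M, ∃ b ∈ M, b ≠ a ∧ ∀ x ∈ M, x ≠ a → x ≠ b → (E a x ↔ E b x) := by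
  intro k
  induction k using Nat.strong_induction_on with
  | _ k ih =>
    intro M hM hk hn hP
    obtain ⟨A, hA, ⟨p, hp⟩, ⟨q, hq⟩, t, ht⟩ := split_exists hs _ M hM rfl hn hP
    by_cases h1 : A.Nontrivial
    · obtain ⟨a, ha, b, hb, hab, h⟩ := ih _ (hk ▸ Set.ncard_lt_ncard
        ⟨hA, fun h => hq.2 (h hq.1)⟩ hM) A (hM.subset hA) rfl h1 (hP.subset hA)
      refine ⟨a, hA ha, b, hA hb, hab, fun x hx e1 e2 => ?_⟩
      by_cases e : x ∈ A
      · exact h x e e1 e2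
      · rw [ht a ha x ⟨hx, e⟩, ht b hb x ⟨hx, e⟩]
    by_cases h2 : (M \ A).Nontrivial
    · obtain ⟨a, ha, b, hb, hab, h⟩ := ih _ (hk ▸ Set.ncard_lt_ncard
        ⟨Set.diff_subset, fun h => (h (hA hp)).2 hp⟩ hM) (M \ A) hM.diff rfl h2
        (hP.subset Set.diff_subset)
      refine ⟨a, ha.1, b, hb.1, hab, fun x hx e1 e2 => ?_⟩
      by_cases e : x ∈ A
      · have e3 := ht x e a ha
        have e4 := ht x e b hb
        exact ⟨fun e5 => hs _ _ (e4.2 (e3.1 (hs _ _ e5))), fun e5 => hs _ _ (e3.2 (e4.1 (hs _ _ e5)))⟩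
      · exact h x ⟨hx, e⟩ e1 e2
    · refine ⟨p, hA hp, q, hq.1, fun e => hq.2 (e ▸ hp), fun x hx e1 e2 => ?_⟩
      exfalso
      by_cases e : x ∈ A
      · exact e1 ((Set.not_nontrivial_iff.1 h1) e hp)
      · exact e2 ((Set.not_nontrivial_iff.1 h2) ⟨hx, e⟩ hq)

theorem DHs.lip (hG : DHs G Set.univ) {W : Set V} {u v : V} {n m : ℕ} (h1 : Rch G W u n v)
    (h2 : Rch G Set.univ u m v) (f : V → ℕ)
    (hf : ∀ a ∈ W, ∀ b ∈ W, G.Adj a b → f b ≤ f a + 1) : f v ≤ f u + m :=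
  (hG W (Set.subset_univ _) u v n m h1 h2).lip f hf

theorem rch2 {a x d : V} (h1 : G.Adj a x) (h2 : G.Adj x d) : Rch G Set.univ a 2 d :=
  ((Rch.zero (Set.mem_univ _)).step (Or.inr h1) (Set.mem_univ _)).step (Or.inr h2) (Set.mem_univ _)

/-- The ends of an induced path on four vertices have no common neighbour. -/
theorem DHs.p4 (hG : DHs G Set.univ) {a b c d x : V} (n2 : a ≠ c) (n3 : a ≠ d) (n5 : b ≠ d)
    (e1 : G.Adj a b) (e2 : G.Adj b c) (e3 : G.Adj c d) (e4 : ¬ G.Adj a c) (e5 : ¬ G.Adj b d)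
    (e6 : ¬ G.Adj a d) (h1 : G.Adj a x) (h2 : G.Adj x d) : False := by
  classical
  have hw : Rch G {a, b, c, d} a 3 d :=
    (((Rch.zero (by simp)).step (Or.inr e1) (by simp)).step (Or.inr e2) (by simp)).step
      (Or.inr e3) (by simp)
  have := hG.lip hw (rch2 h1 h2)
    (fun y => if y = a then 0 else if y = b then 1 else if y = c then 2 else 3) ?_
  · simp [n3.symm, n5.symm, e3.ne.symm] at this
  · have := e1.ne; have := e2.ne; have := e3.ne
    rintro p (rfl | rfl | rfl | rfl) q (rfl | rfl | rfl | rfl) e <;>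
      simp_all [eq_comm, G.adj_comm]

theorem module_twin (hG : DHs G Set.univ) {S M : Set V} (hS : S.Finite) (hM : M ⊆ S)
    (hn : M.Nontrivial) {z : V} (hz : ∀ a ∈ M, G.Adj a z)
    (hmod : ∀ a ∈ M, ∀ b ∈ M, ∀ x ∈ S, x ∉ M → G.Adj a x → G.Adj b x) :
    ∃ a ∈ M, ∃ b ∈ M, Twin G S a b := by
  obtain ⟨a, ha, b, hb, hab, h⟩ := twins_exist (E := G.Adj) (fun _ _ => G.adj_symm) _ M
    (hS.subset hM) rfl hn (fun a ha b _ c _ d hd _ n2 n3 _ n5 _ e1 e2 e3 e4 e5 e6 =>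
      hG.p4 n2 n3 n5 e1 e2 e3 e4 e5 e6 (hz a ha) (hz d hd).symm)
  refine ⟨a, ha, b, hb, hM hb, hab, fun x hx e1 e2 => ?_⟩
  by_cases e : x ∈ M
  · exact h x e e1 e2
  · exact ⟨hmod a ha b hb x hx e, hmod b hb a ha x hx e⟩

end Pool.Agent.H.MP_0380a0_co
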