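import Pool.Agent.H.MP_0380a0_co.B

namespace Pool.Agent.H.MP_0380a0_co

variable {V : Type*} {G : SimpleGraph V}

/-- Level structure of the component of `r` in `S`. -/
structure Lev (G : SimpleGraph V) (S : Set V) (r : V) (C : Set V) (l : V → ℕ) : Prop where
  sub : C ⊆ S
  root : r ∈ C
  lroot : l r = 0
  rch : ∀ v ∈ C, Rch G S r (l v) v
  adj : ∀ a ∈ C, ∀ b ∈ S, G.Adj a b → b ∈ C ∧ l b ≤ l a + 1
  desc : ∀ v ∈ C, v ≠ r → ∃ u ∈ C, G.Adj u v ∧ l u + 1 = l v

theorem lev_exists (S : Set V) {r : V} (hr : r ∈ S) : ∃ C l, Lev G S r C l := by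
  let C : Set V := {v | ∃ k, Rch G S r k v}
  let l : V → ℕ := fun v => sInf {k | Rch G S r k v}
  have h1 : ∀ v ∈ C, Rch G S r (l v) v := fun v hv => Nat.sInf_mem (s := {k | Rch G S r k v}) hv
  have h2 : ∀ v k, Rch G S r k v → l v ≤ k := fun v k h => Nat.sInf_le h
  refine ⟨C, l, fun v ⟨_, h⟩ => h.mem, ⟨0, Rch.zero hr⟩, Nat.le_zero.1 (h2 _ _ (Rch.zero hr)), h1,
    fun a ha b hb e => ⟨⟨_, (h1 a ha).step (Or.inr e) hb⟩, h2 _ _ ((h1 a ha).step (Or.inr e) hb)⟩,
    ?_⟩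
  intro v hv hvr
  have h3 := h1 v hv
  generalize hk : l v = k at h3
  cases h3 with
  | zero _ => exact absurd rfl hvr
  | @step n a _ h4 e hb =>
    rcases e with rfl | e
    · have := h2 _ _ h4; omega
    · have ha : a ∈ C := ⟨_, h4⟩
      have := h2 _ _ h4
      have := h2 _ _ ((h1 a ha).step (Or.inr e) hb)
      exact ⟨a, ha, e, by omega⟩

namespace Lev
variable {S C : Set V} {r : V} {l : V → ℕ}

theorem geo (L : Lev G S r C l) : ∀ (k : ℕ) (v : V), v ∈ C → l v = k →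
    Rch G {u | u ∈ C ∧ (l u < l v ∨ u = v)} r k v := by
  intro k
  induction k with
  | zero =>
    intro v hv h
    by_cases e : v = r
    · subst e; exact Rch.zero ⟨hv, Or.inr rfl⟩
    · obtain ⟨u, _, _, _⟩ := L.desc v hv e; omega
  | succ k ih =>
    intro v hv h
    obtain ⟨u, hu, e, h'⟩ := L.desc v hv (by rintro rfl; have := L.lroot; omega)
    refine ((ih u hu (by omega)).subset ?_).step (Or.inr e) ⟨hv, Or.inr rfl⟩
    rintro x ⟨h1, h2 | rfl⟩
    · exact ⟨h1, Or.inl (by omega)⟩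
    · exact ⟨h1, Or.inl (by omega)⟩

/-- A walk that avoids the neighbours of `y` until it reaches `x` bounds the level of `x`. -/
theorem far (L : Lev G S r C l) (hG : DHs G Set.univ) {z x y : V} {k : ℕ} {W : Set V}
    (hz : z ∈ C) (hy : y ∈ C) (hzy : ¬ G.Adj z y) (hl : l z + 1 ≤ l y) (hW : W ⊆ C)
    (hx : Rch G W z k x) (e : G.Adj x y) (hyW : y ∉ W)
    (hu : ∀ a ∈ W, G.Adj a y → l a = l x) : l x + 1 ≤ l y := by
  classical
  let W' : Set V := {u | u ∈ C ∧ (l u < l z ∨ u = z)} ∪ W ∪ {y}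
  have hxC : x ∈ C := hW hx.mem
  have cat : ∀ k x, Rch G W z k x → Rch G W' r (l z + k) x := by
    intro k x h
    induction h with
    | zero _ => exact (L.geo _ z hz rfl).subset fun u hu => Or.inl (Or.inl hu)
    | step _ e hb ih => exact ih.step e (Or.inl (Or.inr hb))
  have h1 := (cat k x hx).step (Or.inr e) (Or.inr rfl : y ∈ W')
  have hry : r ≠ y := by rintro rfl; have := L.lroot; omega
  have h2 := hG.lip h1 ((L.rch y hy).subset (Set.subset_univ _))
    (fun u => if u = y then l x + 1 else l u) ?_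
  · simpa [hry, L.lroot] using h2
  · have hC : ∀ a ∈ W', a ∈ C := by
      rintro a ((h | h) | h)
      · exact h.1
      · exact hW h
      · exact h ▸ hy
    have hN : ∀ a ∈ W', G.Adj a y → l a = l x := by
      rintro a ((h | h) | h) e'
      · have := (L.adj a h.1 y (L.sub hy) e').2
        rcases h.2 with h3 | rfl
        · omega
        · exact absurd e' hzy
      · exact hu a h e'
      · exact absurd e' (h ▸ G.irrefl)
    intro a ha b hb e'
    by_cases e1 : a = y <;> by_cases e2 : b = y <;> simp only [e1, e2, if_true, if_false]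
    · omega
    · have := hN b hb (e1 ▸ e'.symm); omega
    · have := hN a ha (e2 ▸ e'); omega
    · exact (L.adj a (hC a ha) b (L.sub (hC b hb)) e').2

theorem factA (L : Lev G S r C l) (hG : DHs G Set.univ) {z x y : V} (hz : z ∈ C) (hx : x ∈ C)
    (hy : y ∈ C) (e : G.Adj x y) (e' : G.Adj z x) (h1 : l x = l y) (h2 : l z + 1 = l x) :
    G.Adj z y := by
  by_contra h
  have := L.far hG (W := {z, x}) (k := 1) hz hy h (by omega)
    (by rintro a (rfl | rfl) <;> assumption)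
    ((Rch.zero (by simp)).step (Or.inr e') (by simp)) e
    (by rintro (rfl | rfl); omega; exact G.irrefl e)
    (by rintro a (rfl | rfl) h3; exact absurd h3 h; rfl)
  omega

theorem factB (L : Lev G S r C l) (hG : DHs G Set.univ) {z x d d' : V} (hz : z ∈ C) (hx : x ∈ C)
    (hd : d ∈ C) (hd' : d' ∈ C) (e : G.Adj d x) (e' : G.Adj d' x) (ez : G.Adj z d)
    (h1 : l d + 1 = l x) (h2 : l d' + 1 = l x) (h3 : l z + 1 = l d) : G.Adj z d' := by
  by_cases hdd : d = d'
  · exact hdd ▸ ez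
  by_cases ha : G.Adj d d'
  · exact L.factA hG hz hd hd' ha ez (by omega) h3
  by_contra h
  have := L.far hG (W := {z, d, x}) (k := 2) hz hd' h (by omega)
    (by rintro a (rfl | rfl | rfl) <;> assumption)
    (((Rch.zero (by simp)).step (Or.inr ez) (by simp)).step (Or.inr e) (by simp)) e'.symm
    (by rintro (rfl | rfl | rfl); omega; exact hdd rfl; omega)
    (by rintro a (rfl | rfl | rfl) h3; exact absurd h3 h; exact absurd h3 ha; rfl)
  omega

theorem factC (L : Lev G S r C l) (hG : DHs G Set.univ) {x d d' e : V} (hx : x ∈ C)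
    (hd : d ∈ C) (hd' : d' ∈ C) (he : e ∈ C) (e1 : G.Adj d x) (e2 : G.Adj d' x)
    (h1 : l d + 1 = l x) (h2 : l d' + 1 = l x) (h3 : l e = l d) (n : ¬ G.Adj x e)
    (e3 : G.Adj d e) : G.Adj d' e := by
  by_contra h
  obtain ⟨z, hz, ez, h4⟩ := L.desc d hd (by
    rintro rfl
    obtain ⟨u, _, _, _⟩ := L.desc e he e3.ne.symm
    have := L.lroot; omega)
  have a1 := L.factB hG hz hx hd hd' e1 e2 ez h1 h2 h4
  have a2 := L.factA hG hz hd he e3 ez h3.symm h4
  refine hG.p4 (a := x) (b := d') (c := z) (d := e) (x := d) ?_ ?_ ?_ e2.symm a1.symm a2 ?_ h n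
    e1.symm e3
  · rintro rfl; omega
  · rintro rfl; omega
  · rintro rfl; exact n e2.symm
  · intro e4; have := (L.adj z hz x (L.sub hx) e4.symm).2; omega

theorem factD (L : Lev G S r C l) (hG : DHs G Set.univ) {x y d d1 d2 : V} (hx : x ∈ C)
    (hy : y ∈ C) (hd : d ∈ C) (h1 : d1 ∈ C) (h2 : d2 ∈ C) (n : ¬ G.Adj x y)
    (e1 : G.Adj d x) (e2 : G.Adj d y) (e3 : G.Adj d1 x) (e4 : G.Adj d2 y) (n1 : ¬ G.Adj d1 y)
    (n2 : ¬ G.Adj d2 x) (l0 : l x = l y) (l1 : l d + 1 = l x) (l2 : l d1 + 1 = l x)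
    (l3 : l d2 + 1 = l x) : False := by
  classical
  have hxy : x ≠ y := by rintro rfl; exact n1 e3
  have h12 : d1 ≠ d2 := by rintro rfl; exact n1 e4
  by_cases ha : G.Adj d1 d2
  · exact hG.p4 (a := x) (b := d1) (c := d2) (d := y) (x := d) (by rintro rfl; omega) hxy
      (by rintro rfl; omega) e3.symm ha e4 (fun e => n2 e.symm) n1 n e1.symm e2
  obtain ⟨z, hz, ez, h4⟩ := L.desc d hd (by
    rintro rfl
    obtain ⟨u, _, _, _⟩ := L.desc d1 h1 (by rintro rfl; exact n1 e2)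
    have := L.lroot; omega)
  have a1 := L.factB hG hz hx hd h1 e1 e3 ez l1 l2 h4
  have a2 := L.factB hG hz hy hd h2 e2 e4 ez (by omega) (by omega) h4
  have nx : ¬ G.Adj z x := fun e => by have := (L.adj z hz x (L.sub hx) e).2; omega
  have ny : ¬ G.Adj z y := fun e => by have := (L.adj z hz y (L.sub hy) e).2; omega
  have hw : Rch G {x, d1, z, d2, y} x 4 y :=
    ((((Rch.zero (by simp)).step (Or.inr e3.symm) (by simp)).step (Or.inr a1.symm) (by simp)).step
      (Or.inr a2) (by simp)).step (Or.inr e4) (by simp)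
  have q1 : y ≠ d1 := by rintro rfl; omega
  have q2 : z ≠ x := by rintro rfl; omega
  have q3 : z ≠ y := by rintro rfl; omega
  have q4 : d2 ≠ x := by rintro rfl; omega
  have := hG.lip hw (rch2 e1.symm e2)
    (fun u => if u = x then 0 else if u = d1 then 1 else if u = y then 3 else 2) ?_
  · simp [hxy.symm, q1] at this
  · have := e3.ne; have := a1.ne; have := e4.ne
    rintro p (rfl | rfl | rfl | rfl | rfl) q (rfl | rfl | rfl | rfl | rfl) e <;>
      simp_all [eq_comm, G.adj_comm]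

end Lev

/-- Rooted pruning lemma. -/
theorem prune (hG : DHs G Set.univ) {S : Set V} (hS : S.Finite) {r x0 : V} (hr : r ∈ S)
    (hx0 : x0 ∈ S) (e0 : G.Adj r x0) : ∃ w ∈ S, w ≠ r ∧ (∃ k, Rch G S r k w) ∧
      ∃ w0, (w0 ≠ r ∧ Twin G S w w0) ∨ Pend G S w w0 := by
  obtain ⟨C, l, L⟩ := lev_exists (G := G) S hr
  have hC : C.Finite := hS.subset L.sub
  obtain ⟨t, ht, hmax⟩ := Set.exists_max_image C l hC ⟨r, L.root⟩
  have hk : 1 ≤ l t := by
    have h1 := (L.adj r L.root x0 hx0 e0).1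
    obtain ⟨u, _, _, _⟩ := L.desc x0 h1 e0.ne.symm
    have := hmax x0 h1; omega
  let N : V → Set V := fun x => {u | u ∈ C ∧ G.Adj u x ∧ l u + 1 = l x}
  have hr0 : ∀ a, 1 ≤ l a → a ≠ r := by rintro a h rfl; have := L.lroot; omega
  have hN : ∀ x ∈ C, ∀ y ∈ C, l x = l y → G.Adj x y → N x = N y := by
    intro x hx y hy h e
    ext u
    exact ⟨fun ⟨a, b, c⟩ => ⟨a, L.factA hG a hx hy e b h c, by omega⟩,
      fun ⟨a, b, c⟩ => ⟨a, L.factA hG a hy hx e.symm b h.symm c, by omega⟩⟩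
  have fin : ∀ M ⊆ C, (∀ a ∈ M, 1 ≤ l a) → (∃ a ∈ M, ∃ b ∈ M, Twin G S a b) →
      ∃ w ∈ S, w ≠ r ∧ (∃ k, Rch G S r k w) ∧ ∃ w0, (w0 ≠ r ∧ Twin G S w w0) ∨ Pend G S w w0 := by
    rintro M hM h1 ⟨a, ha, b, hb, h⟩
    exact ⟨a, L.sub (hM ha), hr0 a (h1 a ha), ⟨_, L.rch a (hM ha)⟩, b,
      Or.inl ⟨hr0 b (h1 b hb), h⟩⟩
  by_cases h1 : ∃ x ∈ C, ∃ y ∈ C, l x = l t ∧ l y = l t ∧ x ≠ y ∧ N x = N y
  · obtain ⟨x, hx, y, hy, a1, a2, a3, a4⟩ := h1
    obtain ⟨z, hz, ez, hl⟩ := L.desc x hx (hr0 x (by omega))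
    refine fin {u | u ∈ C ∧ l u = l t ∧ N u = N x} (fun u hu => hu.1)
      (fun u hu => by have := hu.2.1; omega)
      (module_twin hG hS (fun u hu => L.sub hu.1) ⟨x, ⟨hx, a1, rfl⟩, y, ⟨hy, a2, a4.symm⟩, a3⟩
        (z := z) ?_ ?_)
    · rintro a ⟨_, _, b3⟩
      have : z ∈ N a := b3 ▸ ⟨hz, ez, hl⟩
      exact this.2.1.symm
    · rintro a ⟨b1, b2, b3⟩ b ⟨c1, c2, c3⟩ u hu hM e
      have d1 := L.adj a b1 u hu e
      have d2 := (L.adj u d1.1 a (L.sub b1) e.symm).2
      have d3 := hmax u d1.1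
      by_cases d4 : l u = l t
      · exact absurd ⟨d1.1, d4, (hN a b1 u d1.1 (by omega) e).symm.trans b3⟩ hM
      · have : u ∈ N b := (b3.trans c3.symm) ▸ ⟨d1.1, e.symm, by omega⟩
        exact this.2.1.symm
  · have hind : ∀ x ∈ C, ∀ y ∈ C, l x = l t → l y = l t → ¬ G.Adj x y :=
      fun x hx y hy a1 a2 e => h1 ⟨x, hx, y, hy, a1, a2, e.ne, hN x hx y hy (by omega) e⟩
    obtain ⟨x, ⟨hx, lx⟩, hmin⟩ := Set.exists_min_image {u | u ∈ C ∧ l u = l t}
      (fun u => (N u).ncard) (hC.subset fun u hu => hu.1) ⟨t, ht, rfl⟩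
    have hall : ∀ y ∈ C, l y = l t → ∀ u ∈ S, G.Adj y u → u ∈ N y := by
      intro y hy ly u hu e
      have d1 := L.adj y hy u hu e
      have d2 := (L.adj u d1.1 y (L.sub hy) e.symm).2
      have d3 := hmax u d1.1
      have d4 : l u ≠ l t := fun d4 => hind y hy u d1.1 ly d4 e
      exact ⟨d1.1, e.symm, by omega⟩
    by_cases h2 : (N x).Nontrivial
    · refine fin (N x) (fun u hu => hu.1) ?_ (module_twin hG hS (fun u hu => L.sub hu.1) h2
        (z := x) (fun a ha => ha.2.1) ?_)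
      · intro a ha
        obtain ⟨p, hp, q, hq, hpq⟩ := h2
        by_contra h3
        have : ∀ b ∈ N x, b = r := by
          intro b hb
          by_contra h4
          obtain ⟨u, _, _, _⟩ := L.desc b hb.1 h4
          have := ha.2.2; have := hb.2.2; omega
        exact hpq ((this p hp).trans (this q hq).symm)
      · rintro a ⟨b1, b2, b3⟩ b ⟨c1, c2, c3⟩ u hu hM e
        have d1 := L.adj a b1 u hu e
        have d2 := (L.adj u d1.1 a (L.sub b1) e.symm).2
        rcases (by omega : l u + 1 = l a ∨ l u = l a ∨ l u = l t) with d4 | d4 | d4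
        · exact (L.factB hG d1.1 hx b1 c1 b2 c2 e.symm b3 c3 d4).symm
        · exact L.factC hG hx b1 c1 d1.1 b2 c2 b3 c3 d4
            (fun e' => hM ⟨d1.1, e'.symm, by omega⟩) e
        · by_contra n1
          have hsub : N u ⊆ N x := by
            rintro d2 ⟨f1, f2, f3⟩
            refine ⟨f1, ?_, by omega⟩
            by_contra n2
            exact L.factD hG hx d1.1 b1 c1 f1 (hind x hx u d1.1 lx d4) b2 e c2 f2 n1 n2
              (by omega) b3 c3 (by omega)
          have := Set.ncard_lt_ncard (⟨hsub, fun h => n1 (h ⟨c1, c2, c3⟩).2.1⟩ : N u ⊂ N x)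
            (hC.subset fun u hu => hu.1)
          have := hmin u ⟨d1.1, d4⟩
          omega
    · obtain ⟨z, hz, ez, hl⟩ := L.desc x hx (hr0 x (by omega))
      exact ⟨x, L.sub hx, hr0 x (by omega), ⟨_, L.rch x hx⟩, z, Or.inr ⟨ez.ne, fun u hu e =>
        (Set.not_nontrivial_iff.1 h2) (hall x hx lx u hu e) ⟨hz, ez, hl⟩⟩⟩

end Pool.Agent.H.MP_0380a0_co
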