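import Pool.Agent.H.MP_0380a0_co.C

namespace Pool.Agent.H.MP_0380a0_co

variable {V : Type*} {G : SimpleGraph V}

def Rel {I : Type*} (lt : I → I → Prop) (a b : I → Prop) (x y : Set I) : Prop :=
  ∃ q, ¬ (q ∈ x ↔ q ∈ y) ∧ b q ∧ (∀ p, lt p q → (p ∈ x ↔ p ∈ y)) ∧
    ∀ p, lt q p → (p ∈ x ∨ p ∈ y) → a p

theorem Rel.symm {I : Type*} {lt : I → I → Prop} {a b : I → Prop} {x y : Set I}
    (h : Rel lt a b x y) : Rel lt a b y x := by
  obtain ⟨q, h1, h2, h3, h4⟩ := h
  exact ⟨q, fun e => h1 e.symm, h2, fun p hp => (h3 p hp).symm, fun p hp e => h4 p hp e.symm⟩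

theorem rel_map {I J : Type*} {lt : I → I → Prop} {a b : I → Prop} {lt' : J → J → Prop}
    {a' b' : J → Prop} (e : I → J) (T : Set I) {x y : Set I} (hx : x ⊆ T) (hy : y ⊆ T)
    (hi : Set.InjOn e T) (hl : ∀ p ∈ T, ∀ q ∈ T, lt p q ↔ lt' (e p) (e q))
    (ha : ∀ p ∈ T, a p ↔ a' (e p)) (hb : ∀ p ∈ T, b p ↔ b' (e p)) :
    Rel lt a b x y ↔ Rel lt' a' b' (e '' x) (e '' y) := by
  have mx : ∀ p ∈ T, (e p ∈ e '' x ↔ p ∈ x) := fun p hp => hi.mem_image_iff hx hp
  have my : ∀ p ∈ T, (e p ∈ e '' y ↔ p ∈ y) := fun p hp => hi.mem_image_iff hy hp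
  constructor
  · rintro ⟨q, h1, h2, h3, h4⟩
    have hq : q ∈ T := by
      by_contra h; exact h1 ⟨fun e => absurd (hx e) h, fun e => absurd (hy e) h⟩
    refine ⟨e q, by rwa [mx q hq, my q hq], (hb q hq).1 h2, fun p hp => ?_, fun p hp h => ?_⟩
    · constructor
      · rintro ⟨p, h5, rfl⟩
        exact ⟨p, (h3 p ((hl p (hx h5) q hq).2 hp)).1 h5, rfl⟩
      · rintro ⟨p, h5, rfl⟩
        exact ⟨p, (h3 p ((hl p (hy h5) q hq).2 hp)).2 h5, rfl⟩
    · rcases h with ⟨p, h5, rfl⟩ | ⟨p, h5, rfl⟩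
      · exact (ha p (hx h5)).1 (h4 p ((hl q hq p (hx h5)).2 hp) (Or.inl h5))
      · exact (ha p (hy h5)).1 (h4 p ((hl q hq p (hy h5)).2 hp) (Or.inr h5))
  · rintro ⟨q, h1, h2, h3, h4⟩
    obtain ⟨q, hq, rfl⟩ : ∃ q' ∈ T, e q' = q := by
      by_contra h
      exact h1 ⟨fun ⟨p, h5, h6⟩ => absurd ⟨p, hx h5, h6⟩ h, fun ⟨p, h5, h6⟩ => absurd ⟨p, hy h5, h6⟩ h⟩
    refine ⟨q, by rwa [mx q hq, my q hq] at h1, (hb q hq).2 h2, fun p hp => ?_, fun p hp h => ?_⟩
    · by_cases hT : p ∈ T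
      · rw [← mx p hT, ← my p hT]; exact h3 _ ((hl p hT q hq).1 hp)
      · exact ⟨fun e => absurd (hx e) hT, fun e => absurd (hy e) hT⟩
    · have hT : p ∈ T := h.elim (fun e => hx e) fun e => hy e
      exact (ha p hT).2 (h4 _ ((hl q hq p hT).1 hp) (by rwa [mx p hT, my p hT]))

theorem rel_iff {I : Type*} [LinearOrder I] {a b : I → Prop} {x y : Set I} {q : I}
    (h1 : ¬ (q ∈ x ↔ q ∈ y)) (h3 : ∀ p, p < q → (p ∈ x ↔ p ∈ y)) :
    Rel (· < ·) a b x y ↔ b q ∧ ∀ p, q < p → (p ∈ x ∨ p ∈ y) → a p := by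
  constructor
  · rintro ⟨q', g1, g2, g3, g4⟩
    rcases lt_trichotomy q q' with h | rfl | h
    · exact absurd (g3 q h) h1
    · exact ⟨g2, g4⟩
    · exact absurd (h3 q' h) g1
  · rintro ⟨h2, h4⟩
    exact ⟨q, h1, h2, h3, h4⟩

/-- The graph on finite subsets of a coloured linear order. -/
def UG (I : Type*) [LinearOrder I] (a b : I → Prop) : SimpleGraph (Finset I) where
  Adj x y := Rel (· < ·) a b (x : Set I) (y : Set I)
  symm := ⟨fun _ _ h => h.symm⟩
  loopless := ⟨fun _ ⟨_, h, _⟩ => h Iff.rfl⟩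

theorem first_diff {I : Type*} [LinearOrder I] {x y : Finset I} (h : x ≠ y) :
    ∃ q, ¬ (q ∈ x ↔ q ∈ y) ∧ ∀ p, p < q → (p ∈ x ↔ p ∈ y) := by
  have hne : ((x ∪ y).filter fun p => ¬ (p ∈ x ↔ p ∈ y)).Nonempty := by
    by_contra h1
    apply h
    ext p
    by_contra h2
    exact h1 ⟨p, Finset.mem_filter.2 ⟨by rw [Finset.mem_union]; tauto, h2⟩⟩
  refine ⟨_, (Finset.mem_filter.1 (Finset.min'_mem _ hne)).2, fun p hp => ?_⟩
  by_contra h2
  exact absurd (Finset.min'_le _ p (Finset.mem_filter.2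
    ⟨by rw [Finset.mem_union]; tauto, h2⟩)) (not_le.2 hp)

theorem UG_dh (I : Type*) [LinearOrder I] [Nonempty I] (a b : I → Prop) : DHs (UG I a b) Set.univ := by
  refine dhs_of_prune fun S hS hn => ?_
  choose! m hm using fun p : Finset I × Finset I => first_diff (x := p.1) (y := p.2)
  obtain ⟨x0, hx0, y0, hy0, hne⟩ := hn
  obtain ⟨⟨x, y⟩, ⟨hx, hy, hxy⟩, hmax⟩ := Set.exists_max_image
    {p : Finset I × Finset I | p.1 ∈ S ∧ p.2 ∈ S ∧ p.1 ≠ p.2} m
    ((hS.prod hS).subset fun p hp => ⟨hp.1, hp.2.1⟩) ⟨(x0, y0), hx0, hy0, hne⟩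
  obtain ⟨q1, q2⟩ := hm (x, y) hxy
  set q := m (x, y) with hq
  have key : ∀ z ∈ S, z ≠ x → z ≠ y → ∃ K : Prop,
      ((UG I a b).Adj x z ↔ K ∧ ∀ p, q ≤ p → p ∈ x → a p) ∧
      ((UG I a b).Adj y z ↔ K ∧ ∀ p, q ≤ p → p ∈ y → a p) := by
    intro z hz h1 h2
    obtain ⟨r1, r2⟩ := hm (x, z) h1.symm
    obtain ⟨s1, s2⟩ := hm (y, z) h2.symm
    have r3 := hmax (x, z) ⟨hx, hz, h1.symm⟩
    have s3 := hmax (y, z) ⟨hy, hz, h2.symm⟩
    dsimp only at r1 r2 s1 s2 q1 q2
    have hlt : m (x, z) < q := by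
      refine lt_of_le_of_ne r3 fun e => ?_
      rcases s3.lt_or_eq with h | h
      · exact s1 ((q2 _ h).symm.trans (r2 _ (e ▸ h)))
      · rw [e] at r1; rw [h] at s1; tauto
    set r := m (x, z)
    have t1 : ¬ (r ∈ y ↔ r ∈ z) := by rw [← q2 r hlt]; exact r1
    have t2 : ∀ p, p < r → (p ∈ y ↔ p ∈ z) := fun p hp =>
      (q2 p (hp.trans hlt)).symm.trans (r2 p hp)
    refine ⟨b r ∧ ∀ p, r < p → (p ∈ z ∨ (p < q ∧ p ∈ x)) → a p, ?_, ?_⟩
    · refine (rel_iff (q := r) r1 r2).trans ⟨fun ⟨h3, h4⟩ => ⟨⟨h3, fun p hp h => h4 p hp (by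
        simp only [Finset.mem_coe]; tauto)⟩, fun p hp h => h4 p (hlt.trans_le hp) (Or.inl h)⟩,
        fun ⟨⟨h3, h4⟩, h5⟩ => ⟨h3, fun p hp h => ?_⟩⟩
      rcases h with h | h
      · rcases lt_or_ge p q with h6 | h6
        · exact h4 p hp (Or.inr ⟨h6, h⟩)
        · exact h5 p h6 h
      · exact h4 p hp (Or.inl h)
    · refine (rel_iff (q := r) t1 t2).trans ⟨fun ⟨h3, h4⟩ => ⟨⟨h3, fun p hp h => h4 p hp (by
        simp only [Finset.mem_coe]
        rcases h with h | h
        · exact Or.inr h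
        · exact Or.inl ((q2 p h.1).1 h.2))⟩, fun p hp h => h4 p (hlt.trans_le hp) (Or.inl h)⟩,
        fun ⟨⟨h3, h4⟩, h5⟩ => ⟨h3, fun p hp h => ?_⟩⟩
      rcases h with h | h
      · rcases lt_or_ge p q with h6 | h6
        · exact h4 p hp (Or.inr ⟨h6, (q2 p h6).2 h⟩)
        · exact h5 p h6 h
      · exact h4 p hp (Or.inl h)
  by_cases c1 : ∀ p, q ≤ p → p ∈ x → a p
  · by_cases c2 : ∀ p, q ≤ p → p ∈ y → a p
    · refine ⟨x, hx, y, Or.inl ⟨hy, Ne.symm hxy, fun z hz h1 h2 => ?_⟩⟩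
      obtain ⟨K, k1, k2⟩ := key z hz h1 h2
      rw [k1, k2]; tauto
    · refine ⟨y, hy, x, Or.inr ⟨hxy, fun z hz e => ?_⟩⟩
      by_contra h1
      obtain ⟨K, _, k2⟩ := key z hz h1 e.ne.symm
      exact c2 (k2.1 e).2
  · refine ⟨x, hx, y, Or.inr ⟨Ne.symm hxy, fun z hz e => ?_⟩⟩
    by_contra h1
    obtain ⟨K, k1, _⟩ := key z hz e.ne.symm h1
    exact c1 (k1.1 e).2

/-- Ordering property used for pruning. -/
def Good (G : SimpleGraph V) (g : V → ℕ) (S : Set V) : Prop :=
  ∀ v ∈ S, (∃ u ∈ S, g u < g v ∧ G.Adj u v) ∨ ∀ u, G.Reachable u v → g v ≤ g u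

theorem prune_ord (hG : DHs G Set.univ) {g : V → ℕ} (hg : g.Injective) {S : Set V} (hS : S.Finite)
    (hn : S.Nontrivial) (hP : Good G g S) : ∃ w' ∈ S, ∃ w ∈ S, g w < g w' ∧ ∃ α : Prop,
      ∀ x ∈ S, x ≠ w → x ≠ w' → (G.Adj w' x ↔ α ∧ G.Adj w x) := by
  by_cases h : ∃ r ∈ S, ∃ x ∈ S, G.Adj r x
  · obtain ⟨r, ⟨hr, x0, hx0, e0⟩, hmin⟩ := Set.exists_min_image {r | r ∈ S ∧ ∃ x ∈ S, G.Adj r x} g
      (hS.subset fun r hr => hr.1) h
    obtain ⟨w, hw, hwr, ⟨k, hk⟩, w0, ⟨_, ht⟩ | hp⟩ := prune hG hS hr hx0 e0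
    · rcases lt_trichotomy (g w) (g w0) with h1 | h1 | h1
      · exact ⟨w0, ht.1, w, hw, h1, True, fun x hx e1 e2 => by simp [ht.2.2 x hx e1 e2]⟩
      · exact absurd (hg h1).symm ht.2.1
      · exact ⟨w, hw, w0, ht.1, h1, True, fun x hx e1 e2 => by simp [ht.2.2 x hx e2 e1]⟩
    · obtain ⟨y, hy, ey⟩ := hk.symm.first hwr
      have hy0 := hp.2 y hy ey
      subst hy0
      refine ⟨w, hw, y, hy, ?_, False, fun x hx e1 _ => by simpa using fun e => e1 (hp.2 x hx e)⟩
      rcases hP w hw with ⟨u, hu, h1, h2⟩ | h1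
      · exact hp.2 u hu h2.symm ▸ h1
      · obtain ⟨p, _⟩ := walk_of_rch hk
        exact absurd (hg (le_antisymm (h1 r ⟨p⟩) (hmin w ⟨hw, y, hy, ey⟩))) hwr
  · push Not at h
    obtain ⟨x, hx, y, hy, hxy⟩ := hn
    rcases lt_trichotomy (g x) (g y) with h1 | h1 | h1
    · exact ⟨y, hy, x, hx, h1, False, fun z hz _ _ => by simpa using h y hy z hz⟩
    · exact absurd (hg h1) hxy
    · exact ⟨x, hx, y, hy, h1, False, fun z hz _ _ => by simpa using h x hx z hz⟩

/-- A representation of the graph induced on `S`. -/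
structure Rep (G : SimpleGraph V) (g : V → ℕ) (S : Set V) where
  pos : V → ℕ
  a : V → Prop
  b : V → Prop
  φ : V → Set V
  inj : Set.InjOn pos S
  sub : ∀ v ∈ S, ∀ u ∈ φ v, u ∈ S ∧ g u ≤ g v
  inj' : Set.InjOn φ S
  adj : ∀ u ∈ S, ∀ v ∈ S, G.Adj u v ↔ Rel (fun p q => pos p < pos q) a b (φ u) (φ v)

theorem rep_exists (hG : DHs G Set.univ) {g : V → ℕ} (hg : g.Injective) :
    ∀ (k : ℕ) (S : Set V), S.Finite → S.ncard = k → Good G g S → Nonempty (Rep G g S) := by
  classical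
  intro k
  induction k using Nat.strong_induction_on with
  | _ k ih =>
    intro S hS hk hP
    by_cases hn : S.Nontrivial
    swap
    · have hs := Set.not_nontrivial_iff.1 hn
      refine ⟨⟨g, fun _ => True, fun _ => True, fun _ => ∅, hg.injOn, by simp,
        fun u hu v hv _ => hs hu hv, fun u hu v hv => ?_⟩⟩
      rw [hs hu hv]; simp [Rel]
    obtain ⟨w', hw', w, hw, hlt, α, hα⟩ := prune_ord hG hg hS hn hP
    have hww : w ≠ w' := by rintro rfl; omega
    have hP' : Good G g (S \ {w'}) := by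
      rintro v ⟨hv, hv'⟩
      rcases hP v hv with ⟨u, hu, h1, h2⟩ | h1
      · by_cases e : u = w'
        · subst e
          have hvw : v ≠ w := by rintro rfl; omega
          exact Or.inl ⟨w, ⟨hw, hww⟩, by omega, ((hα v hv hvw hv').1 h2).2⟩
        · exact Or.inl ⟨u, ⟨hu, e⟩, h1, h2⟩
      · exact Or.inr h1
    obtain ⟨R⟩ := ih _ (hk ▸ Set.ncard_diff_singleton_lt_of_mem hw' hS) _ hS.diff rfl hP'
    obtain ⟨M, hM⟩ := (hS.image R.pos).bddAbove
    have hM' : ∀ u ∈ S, R.pos u ≤ M := fun u hu => hM ⟨u, hu, rfl⟩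
    let pos := Function.update R.pos w' (M + 1)
    let a := Function.update R.a w' α
    let b := Function.update R.b w' (G.Adj w w')
    let φ := Function.update R.φ w' (insert w' (R.φ w))
    have hsub : ∀ v ∈ S, v ≠ w' → R.φ v ⊆ S \ {w'} := fun v hv e u hu => (R.sub v ⟨hv, e⟩ u hu).1
    have hnot : ∀ v ∈ S, v ≠ w' → w' ∉ R.φ v := fun v hv e hu => (hsub v hv e hu).2 rfl
    have old : ∀ u ∈ S, u ≠ w' → ∀ v ∈ S, v ≠ w' →
        (G.Adj u v ↔ Rel (fun p q => pos p < pos q) a b (R.φ u) (R.φ v)) := by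
      intro u hu e1 v hv e2
      rw [R.adj u ⟨hu, e1⟩ v ⟨hv, e2⟩, rel_map (lt' := fun p q => pos p < pos q) (a' := a) (b' := b)
        id (S \ {w'}) (hsub u hu e1) (hsub v hv e2) (Set.injOn_id _)
        (fun p hp q hq => by
          simp [pos, Function.update_of_ne (show p ≠ w' from hp.2),
            Function.update_of_ne (show q ≠ w' from hq.2)])
        (fun p hp => by simp [a, Function.update_of_ne (show p ≠ w' from hp.2)])
        (fun p hp => by simp [b, Function.update_of_ne (show p ≠ w' from hp.2)])]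
      simp
    have hlast : ∀ p ∈ S, p ≠ w' → pos p < pos w' := by
      intro p hp e
      have := hM' p hp
      simp only [pos, Function.update_of_ne e, Function.update_self]; omega
    have new : ∀ x ∈ S, x ≠ w' →
        (G.Adj w' x ↔ Rel (fun p q => pos p < pos q) a b (insert w' (R.φ w)) (R.φ x)) := by
      intro x hx e
      by_cases exw : x = w
      · subst exw
        constructor
        · intro h
          refine ⟨w', by simp [hnot x hx e], by simpa [b] using h.symm, fun p hp => ?_,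
            fun p hp h1 => ?_⟩
          · have : p ≠ w' := by rintro rfl; omega
            simp [this]
          · have h2 : p ≠ w' := by rintro rfl; omega
            have h3 : p ∈ R.φ x := by simpa [h2] using h1
            have := hlast p (hsub x hx e h3).1 h2
            omega
        · rintro ⟨q, h1, h2, -, -⟩
          have : q = w' := by by_contra h; simp [h] at h1
          subst this
          simpa [b, G.adj_comm] using h2
      · rw [hα x hx exw e, old w hw hww x hx e]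
        constructor
        · rintro ⟨h0, q, h1, h2, h3, h4⟩
          have hq : q ∈ S \ {w'} := by
            by_contra h
            exact h1 ⟨fun e' => absurd (hsub w hw hww e') h, fun e' => absurd (hsub x hx e e') h⟩
          have hq' : q ≠ w' := hq.2
          refine ⟨q, by simpa [hq'] using h1, h2, fun p hp => ?_, fun p hp h5 => ?_⟩
          · have := hlast q hq.1 hq'
            have : p ≠ w' := by rintro rfl; omega
            simpa [this] using h3 p hp
          · by_cases e' : p = w'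
            · subst e'; simpa [a] using h0
            · exact h4 p hp (by simpa [e'] using h5)
        · rintro ⟨q, h1, h2, h3, h4⟩
          have hq' : q ≠ w' := by
            rintro rfl
            refine exw (R.inj' ⟨hx, e⟩ ⟨hw, hww⟩ ?_)
            ext p
            by_cases hp : p ∈ S \ {q}
            · have := h3 p (hlast p hp.1 hp.2)
              have hpq : p ≠ q := hp.2
              simpa [hpq] using this.symm
            · exact ⟨fun e' => absurd (hsub x hx e e') hp, fun e' => absurd (hsub w hw hww e') hp⟩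
          have h1' : ¬ (q ∈ R.φ w ↔ q ∈ R.φ x) := by simpa [hq'] using h1
          have hq : q ∈ S \ {w'} := by
            by_contra h
            exact h1' ⟨fun e' => absurd (hsub w hw hww e') h, fun e' => absurd (hsub x hx e e') h⟩
          refine ⟨by simpa [a] using h4 w' (hlast q hq.1 hq') (by simp), q, h1', h2,
            fun p hp => ?_, fun p hp h5 => h4 p hp (h5.imp_left (Set.mem_insert_of_mem _))⟩
          have := hlast q hq.1 hq'
          have : p ≠ w' := by rintro rfl; omega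
          simpa [this] using h3 p hp
    refine ⟨⟨pos, a, b, φ, ?_, ?_, ?_, ?_⟩⟩
    · intro u hu v hv h
      by_cases e1 : u = w' <;> by_cases e2 : v = w'
      · rw [e1, e2]
      · have := hlast v hv e2; rw [e1] at h; omega
      · have := hlast u hu e1; rw [e2] at h; omega
      · exact R.inj ⟨hu, e1⟩ ⟨hv, e2⟩ (by simpa [pos, Function.update_of_ne, e1, e2] using h)
    · intro v hv u hu
      by_cases e : v = w'
      · subst e
        simp only [φ, Function.update_self] at hu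
        rcases hu with rfl | hu
        · exact ⟨hv, le_rfl⟩
        · have := R.sub w ⟨hw, hww⟩ u hu
          exact ⟨this.1.1, by omega⟩
      · simp only [φ, Function.update_of_ne e] at hu
        have := R.sub v ⟨hv, e⟩ u hu
        exact ⟨this.1.1, this.2⟩
    · intro u hu v hv h
      by_cases e1 : u = w' <;> by_cases e2 : v = w'
      · rw [e1, e2]
      · simp only [φ, e1, Function.update_self, Function.update_of_ne e2] at h
        exact absurd (h ▸ Set.mem_insert _ _) (hnot v hv e2)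
      · simp only [φ, e2, Function.update_self, Function.update_of_ne e1] at h
        exact absurd (h ▸ Set.mem_insert _ _) (hnot u hu e1)
      · exact R.inj' ⟨hu, e1⟩ ⟨hv, e2⟩ (by simpa [φ, Function.update_of_ne, e1, e2] using h)
    · intro u hu v hv
      by_cases e1 : u = w' <;> by_cases e2 : v = w'
      · rw [e1, e2]; simp [Rel]
      · simp only [φ, e1, Function.update_self, Function.update_of_ne e2]
        exact new v hv e2
      · simp only [φ, e2, Function.update_self, Function.update_of_ne e1]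
        rw [G.adj_comm, new u hu e1]
        exact ⟨Rel.symm, Rel.symm⟩
      · simp only [φ, Function.update_of_ne e1, Function.update_of_ne e2]
        exact old u hu e1 v hv e2

end Pool.Agent.H.MP_0380a0_co
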