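import Pool.Agent.H.MP_0380a0_co.D

namespace Pool.Agent.H.MP_0380a0_co

variable {V : Type*} {G : SimpleGraph V}

/-- Stage of enumeration. -/
def Stage (G : SimpleGraph V) (f : V → ℕ) : ℕ → V → Prop
  | 0, _ => False
  | n + 1, v => f v ≤ n ∧ ((∀ u, G.Reachable u v → f v ≤ f u) ∨ ∃ u, Stage G f n u ∧ G.Adj u v)

theorem Stage.succ {f : V → ℕ} : ∀ {n : ℕ} {v : V}, Stage G f n v → Stage G f (n + 1) v
  | 0, _, h => h.elim
  | _ + 1, _, ⟨h1, h2⟩ => ⟨by omega, h2.imp_right fun ⟨u, h3, h4⟩ => ⟨u, h3.succ, h4⟩⟩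

theorem Stage.mono {f : V → ℕ} {n m : ℕ} {v : V} (h : Stage G f n v) (hm : n ≤ m) :
    Stage G f m v := by
  induction hm with
  | refl => exact h
  | step _ ih => exact ih.succ

theorem stage_exists (f : V → ℕ) (v : V) : ∃ n, Stage G f n v := by
  obtain ⟨r, hr, hmin⟩ := (measure f).wf.has_min {u | G.Reachable u v} ⟨v, SimpleGraph.Reachable.refl _⟩
  have h0 : ∃ n, Stage G f n r :=
    ⟨f r + 1, le_rfl, Or.inl fun u hu => not_lt.1 (hmin u (hu.trans hr))⟩
  obtain ⟨p⟩ := hr
  clear hmin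
  induction p with
  | nil => exact h0
  | @cons a b c e _ ih =>
    obtain ⟨n, hn⟩ := h0
    exact ih ⟨max n (f b) + 1, le_max_right _ _, Or.inr ⟨a, hn.mono (le_max_left _ _), e⟩⟩

theorem good_exists [Countable V] (G : SimpleGraph V) : ∃ g : V → ℕ, g.Injective ∧
    ∀ v, (∃ u, g u < g v ∧ G.Adj u v) ∨ ∀ u, G.Reachable u v → g v ≤ g u := by
  classical
  obtain ⟨f, hf⟩ := exists_injective_nat V
  let ρ : V → ℕ := fun v => Nat.find (stage_exists (G := G) f v)
  have h1 : ∀ v, Stage G f (ρ v) v := fun v => Nat.find_spec (stage_exists (G := G) f v)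
  have h2 : ∀ v n, Stage G f n v → ρ v ≤ n := fun v n h => Nat.find_min' _ h
  have h3 : ∀ v, f v < ρ v ∧ ((∀ u, G.Reachable u v → f v ≤ f u) ∨ ∃ u, ρ u < ρ v ∧ G.Adj u v) := by
    intro v
    have := h1 v
    generalize ρ v = k at this
    cases k with
    | zero => exact this.elim
    | succ k => exact ⟨by have := this.1; omega,
        this.2.imp_right fun ⟨u, a, b⟩ => ⟨u, by have := h2 u k a; omega, b⟩⟩
  refine ⟨fun v => ρ v * ρ v + f v, fun u v h => ?_, fun v => ?_⟩
  · have : Nat.pair (f u) (ρ u) = Nat.pair (f v) (ρ v) := by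
      simpa [Nat.pair, (h3 u).1, (h3 v).1] using h
    exact hf (Nat.pair_eq_pair.1 this).1
  · rcases (h3 v).2 with h | ⟨u, h, e⟩
    · refine Or.inr fun u hu => ?_
      have a1 := h u hu
      have a2 := h2 v (f v + 1) ⟨le_rfl, Or.inl h⟩
      have a3 := (h3 u).1
      have : ρ v ≤ ρ u := by omega
      nlinarith
    · refine Or.inl ⟨u, ?_, e⟩
      have a3 := (h3 u).1
      nlinarith

abbrev Idx := Lex (ℚ × Fin 4)

/-- The universal graph. -/
def U0 : SimpleGraph (Finset Idx) :=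
  UG Idx (fun i => (ofLex i).2 = 1 ∨ (ofLex i).2 = 3) (fun i => (ofLex i).2 = 2 ∨ (ofLex i).2 = 3)

theorem U0_dh : DHs U0 Set.univ := UG_dh _ _ _

theorem U0_univ [Countable V] (hG : DHs G Set.univ) : Nonempty (G ↪g U0) := by
  classical
  obtain ⟨g, hg, hP⟩ := good_exists G
  have hfin : ∀ m, {v | g v ≤ m}.Finite := fun m =>
    (Set.finite_le_nat m).preimage hg.injOn
  have hR : ∀ m, Nonempty (Rep G g {v | g v ≤ m}) := fun m =>
    rep_exists hG hg _ _ (hfin m) rfl fun v hv =>
      (hP v).imp_left fun ⟨u, h1, h2⟩ => ⟨u, le_trans h1.le hv, h1, h2⟩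
  let R := fun m => (hR m).some
  let m : Finset (V × V) → ℕ := fun s => s.sup fun p => g p.1
  obtain ⟨χ, hχ⟩ := Finset.rado_selection (β := fun _ : V × V => Prop × Prop × Prop × Prop)
    fun s p => ((R (m s)).pos p.1 < (R (m s)).pos p.2, p.1 ∈ (R (m s)).φ p.2, (R (m s)).a p.1,
      (R (m s)).b p.1)
  let lt : V → V → Prop := fun u v => (χ (u, v)).1
  let φ : V → Set V := fun v => {u | (χ (u, v)).2.1}
  let a : V → Prop := fun u => (χ (u, u)).2.2.1
  let b : V → Prop := fun u => (χ (u, u)).2.2.2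
  have loc : ∀ T : Set V, T.Finite → ∃ (S : Set V) (Q : Rep G g S), T ⊆ S ∧
      (∀ u ∈ T, ∀ v ∈ T, (lt u v ↔ Q.pos u < Q.pos v) ∧ (u ∈ φ v ↔ u ∈ Q.φ v)) ∧
      ∀ u ∈ T, (a u ↔ Q.a u) ∧ (b u ↔ Q.b u) := by
    intro T hT
    obtain ⟨t, ht, h⟩ := hχ (hT.toFinset ×ˢ hT.toFinset)
    have h' : ∀ u ∈ T, ∀ v ∈ T, (u, v) ∈ hT.toFinset ×ˢ hT.toFinset := by
      intro u hu v hv; simp [hu, hv]
    refine ⟨_, R (m t), fun u hu => Finset.le_sup (f := fun p : V × V => g p.1) (ht (h' u hu u hu)),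
      fun u hu v hv => ?_, fun u hu => ?_⟩
    · simp only [lt, φ, Set.mem_setOf_eq, h _ (h' u hu v hv), and_self]
    · simp only [a, b, h _ (h' u hu u hu), and_self]
  haveI : IsStrictTotalOrder V lt :=
    { trichotomous := by
        intro u v h1 h2
        obtain ⟨S, Q, hS, h, _⟩ := loc {u, v} (Set.toFinite _)
        rw [(h u (by simp) v (by simp)).1] at h1
        rw [(h v (by simp) u (by simp)).1] at h2
        exact Q.inj (hS (by simp)) (hS (by simp)) (by omega)
      irrefl := by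
        intro u
        obtain ⟨S, Q, hS, h, _⟩ := loc {u} (Set.toFinite _)
        rw [(h u (by simp) u (by simp)).1]; omega
      trans := by
        intro u v w
        obtain ⟨S, Q, hS, h, _⟩ := loc {u, v, w} (Set.toFinite _)
        rw [(h u (by simp) v (by simp)).1, (h v (by simp) w (by simp)).1,
          (h u (by simp) w (by simp)).1]
        omega }
  letI : LinearOrder V := linearOrderOfSTO lt
  obtain ⟨e⟩ := Order.embedding_from_countable_to_dense V ℚ
  let c : V → Fin 4 := fun u => if a u then (if b u then 3 else 1) else (if b u then 2 else 0)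
  let E : V → Idx := fun u => toLex (e u, c u)
  have hE : E.Injective := fun u v h => e.injective (congrArg (fun i => (ofLex i).1) h)
  have hsub : ∀ v, φ v ⊆ {u | g u ≤ g v} := by
    intro v u hu
    obtain ⟨S, Q, hS, h, _⟩ := loc {u, v} (Set.toFinite _)
    exact (Q.sub v (hS (by simp)) u ((h u (by simp) v (by simp)).2.1 hu)).2
  have hf : ∀ v, (E '' φ v).Finite := fun v => ((hfin _).subset (hsub v)).image _
  have main : ∀ u v, (φ u = φ v → u = v) ∧ (G.Adj u v ↔ Rel lt a b (φ u) (φ v)) := by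
    intro u v
    obtain ⟨S, Q, hS, h, h'⟩ := loc _ (hfin (max (g u) (g v)))
    have hu : u ∈ {x | g x ≤ max (g u) (g v)} := show g u ≤ _ from le_max_left _ _
    have hv : v ∈ {x | g x ≤ max (g u) (g v)} := show g v ≤ _ from le_max_right _ _
    have tr : ∀ x y, x ∈ {x | g x ≤ max (g u) (g v)} → g y ≤ g x →
        y ∈ {x | g x ≤ max (g u) (g v)} := fun x y hx hy => show g y ≤ _ from le_trans hy hx
    have eq : ∀ x ∈ {x | g x ≤ max (g u) (g v)}, φ x = Q.φ x := by
      intro x hx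
      ext y
      exact ⟨fun hy => (h y (tr x y hx (hsub x hy)) x hx).2.1 hy,
        fun hy => (h y (tr x y hx (Q.sub x (hS hx) y hy).2) x hx).2.2 hy⟩
    refine ⟨fun e' => Q.inj' (hS hu) (hS hv) (by rw [← eq u hu, ← eq v hv, e']), ?_⟩
    rw [Q.adj u (hS hu) v (hS hv), ← eq u hu, ← eq v hv]
    have := rel_map (lt := lt) (a := a) (b := b) (lt' := fun p q => Q.pos p < Q.pos q) (a' := Q.a)
      (b' := Q.b) id {x | g x ≤ max (g u) (g v)} (x := φ u) (y := φ v)
      (fun y hy => tr u y hu (hsub u hy)) (fun y hy => tr v y hv (hsub v hy)) (Set.injOn_id _)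
      (fun p hp q hq => (h p hp q hq).1) (fun p hp => (h' p hp).1) (fun p hp => (h' p hp).2)
    simpa using this.symm
  refine ⟨⟨⟨fun v => (hf v).toFinset, fun u v h => (main u v).1 ?_⟩, fun {u v} => ?_⟩⟩
  · exact hE.image_injective (Set.Finite.toFinset_inj.1 h)
  · rw [(main u v).2]
    simp only [U0, UG, Function.Embedding.coeFn_mk, Set.Finite.coe_toFinset]
    refine (rel_map E Set.univ (Set.subset_univ _) (Set.subset_univ _) hE.injOn ?_ ?_ ?_).symm
    · intro p _ q _
      have h1 : lt p q ↔ e p < e q := e.lt_iff_lt.symm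
      rw [h1, Prod.Lex.toLex_lt_toLex]
      constructor
      · exact Or.inl
      · rintro (h | ⟨h, h'⟩)
        · exact h
        · have := e.injective h
          subst this
          exact absurd h' (lt_irrefl _)
    · intro p _
      by_cases h1 : a p <;> by_cases h2 : b p <;> simp [E, c, h1, h2]
    · intro p _
      by_cases h1 : a p <;> by_cases h2 : b p <;> simp [E, c, h1, h2]

end Pool.Agent.H.MP_0380a0_co
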