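import Pool.Agent.H.MP_0380a0_co.E

namespace Pool.Agent.H.MP_0380a0_co

open FreeGroup

variable {X : Type*} [DecidableEq X]

theorem word_cases (x : X) (h : FreeGroup X) :
    (of x * h).toWord = (x, true) :: h.toWord ∨ h.toWord = (x, false) :: (of x * h).toWord := by
  have e : (of x * h).toWord = reduce ((x, true) :: h.toWord) := by
    conv_lhs => rw [← mk_toWord (x := h)]
    rw [of, mul_mk, toWord_mk]; rfl
  rw [e, reduce.cons, reduce_toWord]
  cases hw : h.toWord with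
  | nil => exact Or.inl rfl
  | cons a l =>
    obtain ⟨y, c⟩ := a
    by_cases h1 : x = y ∧ true = !c
    · right
      obtain ⟨rfl, h2⟩ := h1
      cases c
      · simp
      · simp at h2
    · left
      simp only [h1, if_false]

/-- A Cayley graph of the free group whose blocks are copies of `U`. -/
def Cay (U : SimpleGraph X) : SimpleGraph (FreeGroup X) where
  Adj g g' := ∃ h u u', U.Adj u u' ∧ g = of u * h ∧ g' = of u' * h
  symm := ⟨fun _ _ ⟨h, u, u', e, a, b⟩ => ⟨h, u', u, e.symm, b, a⟩⟩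
  loopless := ⟨fun _ ⟨_, _, _, e, a, b⟩ =>
    e.ne (of_injective (mul_right_cancel (a.symm.trans b)))⟩

theorem cay_trans (U : SimpleGraph X) (a b : FreeGroup X) : ∃ φ : Cay U ≃g Cay U, φ a = b := by
  refine ⟨⟨Equiv.mulRight (a⁻¹ * b), fun {g g'} => ?_⟩, by simp⟩
  simp only [Equiv.coe_mulRight]
  constructor
  · rintro ⟨h, u, u', e, h1, h2⟩
    exact ⟨h * (a⁻¹ * b)⁻¹, u, u', e, by rw [← mul_assoc, ← h1]; group,
      by rw [← mul_assoc, ← h2]; group⟩
  · rintro ⟨h, u, u', e, rfl, rfl⟩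
    exact ⟨h * (a⁻¹ * b), u, u', e, by group, by group⟩

theorem cay_top {U : SimpleGraph X} {S : Set (FreeGroup X)} {k k' h : FreeGroup X} {u u' : X}
    (hmax : ∀ y ∈ S, y.toWord.length ≤ k.toWord.length) (hk' : k' ∈ S) (e : U.Adj u u')
    (h1 : k = of u * h) (h2 : k' = of u' * h) : k.toWord = (u, true) :: h.toWord := by
  rcases word_cases u h with a | a
  · exact h1 ▸ a
  · rcases word_cases u' h with b | b
    · have := hmax k' hk'
      rw [h2, b, a, h1] at this
      simp only [List.length_cons] at this; omega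
    · rw [a] at b
      exact absurd (Prod.ext_iff.1 (List.cons.inj b).1).1 e.ne

theorem cay_embed (U : SimpleGraph X) : Nonempty (U ↪g Cay U) := by
  refine ⟨⟨⟨of, of_injective⟩, fun {u v} => ⟨?_, fun e => ⟨1, u, v, e, by simp, by simp⟩⟩⟩⟩
  rintro ⟨h, a, b, e, h1, h2⟩
  have h1' : (of u : FreeGroup X) = of a * h := h1
  have h2' : (of v : FreeGroup X) = of b * h := h2
  have := cay_top (S := {of v}) (k := of u) (by rintro y rfl; simp) rfl e h1' h2'
  rw [toWord_of] at this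
  have h3 : h = 1 := toWord_eq_nil_iff.1 (List.cons.inj this).2.symm
  subst h3
  rw [of_injective (h1'.trans (mul_one _)), of_injective (h2'.trans (mul_one _))]
  exact e

theorem cay_dh {U : SimpleGraph X} (hU : DHs U Set.univ) : DHs (Cay U) Set.univ := by
  refine dhs_of_prune fun S hS hn => ?_
  obtain ⟨g, hg, hmax⟩ := Set.exists_max_image S (fun y => y.toWord.length) hS hn.nonempty
  by_cases h0 : ∃ g' ∈ S, (Cay U).Adj g g'
  swap
  · obtain ⟨y, _, hy⟩ := hn.exists_ne g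
    exact ⟨g, hg, y, Or.inr ⟨hy, fun x hx e => absurd ⟨x, hx, e⟩ h0⟩⟩
  obtain ⟨g', hg', h, u, u', e, h1, h2⟩ := h0
  have hgt := cay_top hmax hg' e h1 h2
  let T : Set X := {v | of v * h ∈ S}
  have hinj : Function.Injective fun v : X => of v * h :=
    fun v w e => of_injective (mul_right_cancel e)
  have hT : T.Finite := hS.preimage hinj.injOn
  let top : X → Prop := fun v => (of v * h).toWord = (v, true) :: h.toWord
  have nb : ∀ v, top v → ∀ k ∈ S, (Cay U).Adj (of v * h) k → ∃ a ∈ T, k = of a * h ∧ U.Adj v a := by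
    rintro v hv k hk ⟨h', a, a', e', b1, b2⟩
    have := cay_top (S := S) (k := of v * h) (fun y hy => by
      have := hmax y hy
      simp only [hgt] at this
      rw [hv]; exact this) hk e' b1 b2
    rw [hv] at this
    have c1 : v = a := (Prod.ext_iff.1 (List.cons.inj this).1).1
    have c2 : h = h' := toWord_injective (List.cons.inj this).2
    subst c1 c2
    exact ⟨a', show of a' * h ∈ S from b2 ▸ hk, b2, e'⟩
  have fin : ∀ w ∈ T, top w → ∀ w0, (top w0 ∧ Twin U T w w0) ∨ Pend U T w w0 →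
      ∃ w ∈ S, ∃ w0, Twin (Cay U) S w w0 ∨ Pend (Cay U) S w w0 := by
    rintro w hw tw w0 (⟨t0, ht⟩ | hp)
    · refine ⟨of w * h, hw, of w0 * h, Or.inl ⟨ht.1, fun e => ht.2.1 (hinj e), ?_⟩⟩
      intro k hk n1 n2
      constructor
      · intro e'
        obtain ⟨a, ha, rfl, e2⟩ := nb w tw k hk e'
        exact ⟨h, w0, a, (ht.2.2 a ha (fun e => n1 (e ▸ rfl)) (fun e => n2 (e ▸ rfl))).1 e2,
          rfl, rfl⟩
      · intro e'
        obtain ⟨a, ha, rfl, e2⟩ := nb w0 t0 k hk e'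
        exact ⟨h, w, a, (ht.2.2 a ha (fun e => n1 (e ▸ rfl)) (fun e => n2 (e ▸ rfl))).2 e2,
          rfl, rfl⟩
    · refine ⟨of w * h, hw, of w0 * h, Or.inr ⟨fun e => hp.1 (hinj e), fun k hk e' => ?_⟩⟩
      obtain ⟨a, ha, rfl, e2⟩ := nb w tw k hk e'
      rw [hp.2 a ha e2]
  by_cases c : ∃ ρ ∈ T, ¬ top ρ ∧ ∃ x ∈ T, U.Adj ρ x
  · obtain ⟨ρ, hρ, n, x, hx, e'⟩ := c
    have tp : ∀ v, v ≠ ρ → top v := by
      intro v hv
      rcases word_cases v h with a | a
      · exact a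
      · rw [(word_cases ρ h).resolve_left n] at a
        exact absurd (Prod.ext_iff.1 (List.cons.inj a).1).1.symm hv
    obtain ⟨w, hw, hwr, _, w0, hh⟩ := prune hU hT hρ hx e'
    exact fin w hw (tp w hwr) w0 (hh.imp_left fun a => ⟨tp w0 a.1, a.2⟩)
  · have tp : ∀ v ∈ T, (∃ x ∈ T, U.Adj v x) → top v := by
      intro v hv hx
      by_contra n
      exact c ⟨v, hv, n, hx⟩
    obtain ⟨w, hw, hwr, ⟨k, hk⟩, w0, hh⟩ := prune hU hT (show of u * h ∈ S from h1 ▸ hg)
      (show of u' * h ∈ S from h2 ▸ hg') e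
    obtain ⟨x, hx, ex⟩ := hk.symm.first hwr
    refine fin w hw (tp w hw ⟨x, hx, ex⟩) w0 (hh.imp_left fun a => ⟨tp w0 a.2.1 ?_, a.2⟩)
    by_cases e0 : x = w0
    · exact ⟨w, hw, (e0 ▸ ex).symm⟩
    · exact ⟨x, hx, (a.2.2.2 x hx ex.ne.symm e0).1 ex⟩

end Pool.Agent.H.MP_0380a0_co
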